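import Mathlib

/-!
# (gem, P2+P3)-free graphs have bounded clique-width: common definitions

Everything is stated for `ℕ`-indexed families `x : ℕ → V` of which only the entries with index `< n`
matter.
-/

namespace Pool.Agent.H192R2.GP

variable {V : Type}

/-- `(gem, P2+P3)`-free, in first-order form. -/
structure Cls (G : SimpleGraph V) : Prop where
  /-- no gem with path `p1 p2 p3 p4` and centre `c` -/
  gem : ∀ p1 p2 p3 p4 c : V, G.Adj p1 p2 → G.Adj p2 p3 → G.Adj p3 p4 → ¬ G.Adj p1 p3 →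
    ¬ G.Adj p2 p4 → ¬ G.Adj p1 p4 → G.Adj c p1 → G.Adj c p2 → G.Adj c p3 → G.Adj c p4 → False
  /-- no `P2+P3` with edge `ab` and path `c d e` -/
  p23 : ∀ a b c d e : V, G.Adj a b → G.Adj c d → G.Adj d e → c ≠ e → ¬ G.Adj c e →
    ¬ G.Adj a c → ¬ G.Adj a d → ¬ G.Adj a e → ¬ G.Adj b c → ¬ G.Adj b d → ¬ G.Adj b e → False

/-- `A` is a cut with at most `s` labels: two vertices of `A` with the same label have the same
neighbours outside `A`. -/
def Cut (G : SimpleGraph V) (s : ℕ) (A : Set V) : Prop :=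
  ∃ τ : V → Fin s, ∀ u ∈ A, ∀ u' ∈ A, τ u = τ u' → ∀ v, v ∉ A → (G.Adj u v ↔ G.Adj u' v)

/-- The family `x 0, ..., x (n-1)` is split by a cut with `s` labels: at least `M` indices have
their vertex in `A`, and at least `M` indices have their vertex outside `A`. -/
def Split (G : SimpleGraph V) (s M n : ℕ) (x : ℕ → V) : Prop :=
  ∃ A : Set V, Cut G s A ∧ ∃ I J : Finset ℕ, M ≤ I.card ∧ M ≤ J.card ∧
    (∀ i ∈ I, i < n ∧ x i ∈ A) ∧ (∀ j ∈ J, j < n ∧ x j ∉ A)

/-- The shape of all configuration theorems: in a (gem, P2+P3)-free graph, a configuration of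
type `C` of size `n = n(M)` is split by a cut with `s` labels (`s` independent of `M`). -/
def Splits (C : ∀ {V : Type}, SimpleGraph V → ℕ → (ℕ → V) → Prop) : Prop :=
  ∃ s : ℕ, ∀ M : ℕ, ∃ n : ℕ, ∀ (V : Type) [Finite V] (G : SimpleGraph V), Cls G → ∀ x : ℕ → V,
    C G n x → Split G s M n x

/-- `x 0, ..., x (n-1)` is a clique (in particular the vertices are distinct) -/
def Clq (G : SimpleGraph V) (n : ℕ) (x : ℕ → V) : Prop :=
  ∀ i j, i < n → j < n → i ≠ j → G.Adj (x i) (x j)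

/-- `x 0, ..., x (n-1)` are distinct and pairwise non-adjacent -/
def Ind (G : SimpleGraph V) (n : ℕ) (x : ℕ → V) : Prop :=
  ∀ i j, i < n → j < n → i ≠ j → x i ≠ x j ∧ ¬ G.Adj (x i) (x j)

/-- matching -/
def Mat (G : SimpleGraph V) (n : ℕ) (x y : ℕ → V) : Prop :=
  ∀ i j, i < n → j < n → (G.Adj (x i) (y j) ↔ i = j)

/-- co-matching -/
def Com (G : SimpleGraph V) (n : ℕ) (x y : ℕ → V) : Prop :=
  ∀ i j, i < n → j < n → (G.Adj (x i) (y j) ↔ i ≠ j)

/-- half graph -/
def Half (G : SimpleGraph V) (n : ℕ) (x y : ℕ → V) : Prop :=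
  ∀ i j, i < n → j < n → (G.Adj (x i) (y j) ↔ i ≤ j)

/-- completely joined -/
def Full (G : SimpleGraph V) (n : ℕ) (x y : ℕ → V) : Prop :=
  ∀ i j, i < n → j < n → G.Adj (x i) (y j)

/-- no edges between -/
def Emp (G : SimpleGraph V) (n : ℕ) (x y : ℕ → V) : Prop :=
  ∀ i j, i < n → j < n → ¬ G.Adj (x i) (y j)

end Pool.Agent.H192R2.GP
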