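import Pool.Agent.H192R2.GP.Defs
import Pool.Agent.H175R2.Cw

/-! Statement stubs (sorried); each module proves its own in its own file. -/

namespace Pool.Agent.H192R2.GP.Stub

open Pool.Agent.H192R2.GP

/-! ## Module BAS : basic lemmas on `Cut` and `Split` -/

theorem Cut.of_type {V α : Type} [Fintype α] {G : SimpleGraph V} {A : Set V} {s : ℕ}
    (hs : Fintype.card α ≤ s) (τ : V → α)
    (h : ∀ u ∈ A, ∀ u' ∈ A, τ u = τ u' → ∀ v, v ∉ A → (G.Adj u v ↔ G.Adj u' v)) : Cut G s A := sorry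

theorem Cut.mono {V : Type} {G : SimpleGraph V} {A : Set V} {s s' : ℕ} (hs : s ≤ s')
    (h : Cut G s A) : Cut G s' A := sorry

theorem Cut.compl {V : Type} {G : SimpleGraph V} {A : Set V} {s : ℕ} (h : Cut G s A) :
    Cut G (2 ^ s) Aᶜ := sorry

theorem Split.mono {V : Type} {G : SimpleGraph V} {s s' M M' n : ℕ} {x : ℕ → V} (hs : s ≤ s')
    (hM : M' ≤ M) (h : Split G s M n x) : Split G s' M' n x := sorry

/-- passing to a sub-family -/
theorem Split.sub {V : Type} {G : SimpleGraph V} {s M n m : ℕ} {x : ℕ → V} (σ : ℕ → ℕ)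
    (hσ : ∀ i j, i < m → j < m → σ i = σ j → i = j) (hn : ∀ i, i < m → σ i < n)
    (h : Split G s M m (fun i => x (σ i))) : Split G s M n x := sorry

/-- the main transfer lemma: `x i`, `y i` in one of the three patterns, `y` split => `x` split -/
theorem Split.transfer {V : Type} {G : SimpleGraph V} {s M n : ℕ} {x y : ℕ → V}
    (h : Mat G n x y ∨ Com G n x y ∨ Half G n x y)
    (hy : Split G s (M + s + 1) n y) : Split G s M n x := sorry

/-- the converse direction -/
theorem Split.transfer' {V : Type} {G : SimpleGraph V} {s M n : ℕ} {x y : ℕ → V}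
    (h : Mat G n x y ∨ Com G n x y ∨ Half G n x y)
    (hx : Split G s (M + s + 1) n x) : Split G s M n y := sorry

/-! ## Module RAM : Ramsey tools -/

/-- Ramsey for pairs of indices, increasing homogeneous subsequence -/
theorem ramsey (c n : ℕ) : ∃ N : ℕ, ∀ col : ℕ → ℕ → ℕ, (∀ i j, i < j → j < N → col i j < c) →
    ∃ σ : ℕ → ℕ, (∀ i j, i < j → j < n → σ i < σ j) ∧ (∀ i, i < n → σ i < N) ∧
      ∃ k, ∀ i j, i < j → j < n → col (σ i) (σ j) = k := sorry

/-- a family of `N` distinct vertices contains a clique or an independent family of size `n` -/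
theorem clq_or_ind (n : ℕ) : ∃ N : ℕ, ∀ {V : Type} (G : SimpleGraph V) (x : ℕ → V),
    (∀ i j, i < N → j < N → x i = x j → i = j) →
    ∃ σ : ℕ → ℕ, (∀ i j, i < j → j < n → σ i < σ j) ∧ (∀ i, i < n → σ i < N) ∧
      (Clq G n (fun i => x (σ i)) ∨ Ind G n (fun i => x (σ i))) := sorry

/-- Bipartite Ramsey. `R` is any relation; `x 0, ..., x (N-1)` have pairwise distinct rows with
respect to the columns in `C`. Then there is an increasing subfamily and columns `y i` in `C`
such that the relation is a matching, a co-matching, or a half graph in one of the two orders. -/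
theorem bip_ramsey (n : ℕ) : ∃ N : ℕ, ∀ {V W : Type} (R : V → W → Prop) (C : Set W) (x : ℕ → V),
    (∀ i j, i < j → j < N → ∃ c ∈ C, ¬ (R (x i) c ↔ R (x j) c)) →
    ∃ (σ : ℕ → ℕ) (y : ℕ → W), (∀ i j, i < j → j < n → σ i < σ j) ∧ (∀ i, i < n → σ i < N) ∧
      (∀ i, i < n → y i ∈ C) ∧
      ((∀ i j, i < n → j < n → (R (x (σ i)) (y j) ↔ i = j)) ∨
       (∀ i j, i < n → j < n → (R (x (σ i)) (y j) ↔ i ≠ j)) ∨
       (∀ i j, i < n → j < n → (R (x (σ i)) (y j) ↔ i ≤ j)) ∨
       (∀ i j, i < n → j < n → (R (x (σ i)) (y j) ↔ j ≤ i))) := sorry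

/-- twins or a pattern: a family of `N` distinct vertices contains `n` vertices with the same
neighbourhood, or a subfamily of size `n` in pattern with some vertices `y i`, where `y` is a
clique or independent. -/
theorem pattern (n : ℕ) : ∃ N : ℕ, ∀ {V : Type} (G : SimpleGraph V) (x : ℕ → V), Ind G N x →
    ∃ σ : ℕ → ℕ, (∀ i j, i < n → j < n → σ i = σ j → i = j) ∧ (∀ i, i < n → σ i < N) ∧
      ((∀ i j v, i < n → j < n → (G.Adj (x (σ i)) v ↔ G.Adj (x (σ j)) v)) ∨
       ∃ y : ℕ → V, (Mat G n (fun i => x (σ i)) y ∨ Com G n (fun i => x (σ i)) y ∨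
           Half G n (fun i => x (σ i)) y) ∧ (Clq G n y ∨ Ind G n y)) := sorry

/-! ## Configuration theorems -/

/-- alpha: cliques -/
theorem alpha : Splits (fun {V} (G : SimpleGraph V) n x => Clq G n x) := sorry

/-- beta1: threshold configuration -/
theorem beta1 : Splits (fun {V} (G : SimpleGraph V) n k => Clq G n k ∧ ∃ x : ℕ → V, Ind G n x ∧
    Half G n k x) := sorry

/-- beta2: half graph with both sides independent -/
theorem beta2 : Splits (fun {V} (G : SimpleGraph V) n x => Ind G n x ∧ ∃ y : ℕ → V, Ind G n y ∧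
    Half G n x y) := sorry

/-- gamma: co-matching with both sides independent -/
theorem gamma : Splits (fun {V} (G : SimpleGraph V) n x => Ind G n x ∧ ∃ y : ℕ → V, Ind G n y ∧
    Com G n x y) := sorry

/-- delta: induced matching -/
theorem delta : Splits (fun {V} (G : SimpleGraph V) n x => Ind G n x ∧ ∃ y : ℕ → V, Ind G n y ∧
    Mat G n x y) := sorry

/-! ## Module MAIN : flow -/

/-- large sets are cut by cuts with boundedly many labels -/
theorem main_split : ∃ s : ℕ, ∀ M : ℕ, ∃ N : ℕ, ∀ (V : Type) [Finite V] (G : SimpleGraph V), Cls G →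
    ∀ X : Finset V, N ≤ X.card → ∃ A : Set V, Cut G s A ∧ ∃ X1 X2 : Finset V, X1 ⊆ X ∧ X2 ⊆ X ∧
      (∀ v ∈ X1, v ∈ A) ∧ (∀ v ∈ X2, v ∉ A) ∧ M ≤ X1.card ∧ M ≤ X2.card := sorry

/-! ## Module RW : rank-width argument and translation to clique-width -/

/-- if all large sets are cut, there is a decomposition tree with boundedly many types -/
theorem dt_of_split (s N : ℕ) : ∃ K : ℕ, ∀ (V : Type) [Fintype V] [Nonempty V] (G : SimpleGraph V),
    (∀ X : Finset V, N ≤ X.card → ∃ A : Set V, Cut G s A ∧ ∃ X1 X2 : Finset V, X1 ⊆ X ∧ X2 ⊆ X ∧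
      (∀ v ∈ X1, v ∈ A) ∧ (∀ v ∈ X2, v ∉ A) ∧ 2 * s + 1 ≤ X1.card ∧ 2 * s + 1 ≤ X2.card) →
    Pool.Agent.H175R2.DT G K Finset.univ Finset.univ := sorry

/-- the encoding of "clique-width at most `k`" used in the frozen statement S05981 -/
def FrozenCw (k : ℕ) {V : Type} (G : SimpleGraph V) : Prop :=
    ∃ l : V → Fin k, ∀ P : Set V → (V → Fin k) → SimpleGraph V → Prop,
      (∀ (v : V) (l0 : V → Fin k), P ({v} : Set V) l0 ⊥) →
      (∀ (S1 S2 : Set V) (l1 l2 l0 : V → Fin k) (H1 H2 : SimpleGraph V),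
          P S1 l1 H1 → P S2 l2 H2 → Disjoint S1 S2 →
          (∀ u ∈ S1, l0 u = l1 u) → (∀ u ∈ S2, l0 u = l2 u) →
          P (S1 ∪ S2) l0 (H1 ⊔ H2)) →
      (∀ (S : Set V) (l0 : V → Fin k) (H H' : SimpleGraph V) (i j : Fin k),
          P S l0 H → i ≠ j →
          (∀ u v : V, H'.Adj u v ↔ (H.Adj u v ∨
              (u ∈ S ∧ v ∈ S ∧ ((l0 u = i ∧ l0 v = j) ∨ (l0 u = j ∧ l0 v = i))))) →
          P S l0 H') →
      (∀ (S : Set V) (l0 l' : V → Fin k) (H : SimpleGraph V) (i j : Fin k),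
          P S l0 H →
          (∀ u ∈ S, (l0 u = i → l' u = j) ∧ (l0 u ≠ i → l' u = l0 u)) →
          P S l' H) →
      P Set.univ l G

theorem frozen_of_cwLE {k : ℕ} {V : Type} (G : SimpleGraph V) (h : Pool.Agent.H175R2.CwLE G k) :
    FrozenCw k G := sorry

/-- the class of the frozen statement is `Cls` -/
theorem cls_of_frozen {V : Type} (G : SimpleGraph V)
    (h1 : IsEmpty ((SimpleGraph.fromRel (fun a b : Fin 5 => a.val + 1 = b.val ∧ b.val ≤ 3))ᶜ ↪g G))
    (h2 : IsEmpty (SimpleGraph.fromRel (fun a b : Fin 5 =>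
        (a.val = 0 ∧ b.val = 1) ∨ (a.val = 2 ∧ b.val = 3) ∨ (a.val = 3 ∧ b.val = 4)) ↪g G)) :
    Cls G := sorry

end Pool.Agent.H192R2.GP.Stub
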